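import Pool.Agent.Helper8.ZT.Defs

/-!
# Polynomials on lines, and the number of covered pairs
-/

set_option autoImplicit false

namespace Pool.Agent.Helper50.ZT

open Finset
open Pool.Agent.Helper22.ETModel Pool.Agent.Helper22.EP
open Pool.Agent.Helper23.SP Pool.Agent.Helper8.ZT

/-- ZT-3 -/
theorem lineOK_pev {m n : ℕ} (h : 3 * m ≤ n) {d : ℕ} (f : MvPolynomial (Fin n × Fin n) ℝ)
    (hf : f.totalDegree ≤ d) : LineOK (pev h f) d := by
  classical
  intro u v
  set g : E m → Polynomial ℝ := fun e =>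
    Polynomial.C ((sg e : ℝ) * u e) + Polynomial.C ((sg e : ℝ) * v e) * Polynomial.X with hg
  set p : Polynomial ℝ := MvPolynomial.aeval g (redP h f) with hp
  have hev : ∀ c : ℝ, p.eval c = pev h f (fun i => u i + c * v i) := by
    intro c
    have h1 : p.eval c = MvPolynomial.aeval (fun e => (g e).eval c) (redP h f) := by
      rw [hp]
      have := MvPolynomial.comp_aeval_apply (R := ℝ) g (Polynomial.aeval c) (redP h f)
      rw [Polynomial.coe_aeval_eq_eval] at this
      exact this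
    rw [h1, pev, MvPolynomial.aeval_eq_eval]
    congr 2
    funext e
    simp only [hg, Polynomial.eval_add, Polynomial.eval_C, Polynomial.eval_mul, Polynomial.eval_X]
    ring
  have hdeg : p.natDegree ≤ d := by
    have := MvPolynomial.aeval_natDegree_le (m := d) (n := 1) (redP h f)
      ((totalDegree_redP h f).trans hf) g (fun i => by
        simp only [hg]
        compute_degree)
    simpa using this
  rcases eq_or_ne p 0 with h0 | h0
  · left
    intro c
    rw [← hev, h0, Polynomial.eval_zero]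
  · right
    intro S hS
    refine le_trans ?_ hdeg
    refine le_trans (Finset.card_le_card (t := p.roots.toFinset) ?_)
      ((Multiset.toFinset_card_le _).trans (Polynomial.card_roots' p))
    intro c hc
    rw [Multiset.mem_toFinset, Polynomial.mem_roots h0, Polynomial.IsRoot.def, hev]
    exact hS c hc

/-- ZT-3b -/
theorem lineOK_update {ι : Type} [DecidableEq ι] {P : (ι → ℝ) → ℝ} {d : ℕ} (hP : LineOK P d)
    (i0 i1 : ι) : LineOK (fun y => P (Function.update y i0 (y i1))) d := by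
  intro u v
  have key : ∀ c : ℝ, Function.update (fun i => u i + c * v i) i0 (u i1 + c * v i1) =
      fun i => Function.update u i0 (u i1) i + c * Function.update v i0 (v i1) i := by
    intro c
    funext i
    by_cases hi : i = i0
    · subst hi; simp
    · simp [Function.update_of_ne hi]
  have h := hP (Function.update u i0 (u i1)) (Function.update v i0 (v i1))
  simp only [key]
  exact h

/-- A direction in which finitely many pairs meet at different times. -/
theorem exists_direction {ι : Type} [Fintype ι] [DecidableEq ι] (y0 : ι → ℝ)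
    (Q : Finset (ι × ι)) (side : ι → Bool)
    (hQ : ∀ p ∈ Q, side p.1 = true ∧ side p.2 = false)
    (hne : ∀ p ∈ Q, y0 p.1 ≠ y0 p.2) :
    ∃ v : ι → ℝ, (∀ p ∈ Q, v p.1 ≠ v p.2) ∧ ∀ p ∈ Q, ∀ q ∈ Q, p ≠ q →
      (y0 p.2 - y0 p.1) * (v q.1 - v q.2) ≠ (y0 q.2 - y0 q.1) * (v p.1 - v p.2) := by
  set L1 : ι × ι → MvPolynomial ι ℝ := fun p => MvPolynomial.X p.1 - MvPolynomial.X p.2 with hL1
  set L2 : (ι × ι) × (ι × ι) → MvPolynomial ι ℝ := fun r =>
    MvPolynomial.C (y0 r.1.2 - y0 r.1.1) * (MvPolynomial.X r.2.1 - MvPolynomial.X r.2.2) -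
    MvPolynomial.C (y0 r.2.2 - y0 r.2.1) * (MvPolynomial.X r.1.1 - MvPolynomial.X r.1.2) with hL2
  have n1 : ∀ p ∈ Q, L1 p ≠ 0 := by
    intro p hp h0
    have h := congrArg (MvPolynomial.eval (Pi.single p.1 (1 : ℝ))) h0
    have hd : p.2 ≠ p.1 := by
      intro h
      have := hQ p hp
      rw [h] at this
      simp_all
    simp [hL1, Pi.single_eq_of_ne hd] at h
  have n2 : ∀ r ∈ Q.offDiag, L2 r ≠ 0 := by
    rintro ⟨p, q⟩ hr h0
    rw [Finset.mem_offDiag] at hr
    obtain ⟨hp, hq, hpq⟩ := hr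
    simp only at hp hq hpq
    have sp := hQ p hp
    have sq := hQ q hq
    have d12 : ∀ a b : ι, side a = true → side b = false → b ≠ a := by
      intro a b ha hb h
      rw [h, ha] at hb
      exact absurd hb (by simp)
    by_cases h1 : p.1 = q.1
    · have h2 : p.2 ≠ q.2 := fun h => hpq (Prod.ext h1 h)
      -- coefficient of `v p.2`
      have h := congrArg (MvPolynomial.eval (Pi.single p.2 (1 : ℝ))) h0
      have e1 : (Pi.single p.2 (1 : ℝ) : ι → ℝ) q.1 = 0 :=
        Pi.single_eq_of_ne (d12 _ _ sq.1 sp.2).symm _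
      have e2 : (Pi.single p.2 (1 : ℝ) : ι → ℝ) q.2 = 0 := Pi.single_eq_of_ne h2.symm _
      have e3 : (Pi.single p.2 (1 : ℝ) : ι → ℝ) p.1 = 0 :=
        Pi.single_eq_of_ne (d12 _ _ sp.1 sp.2).symm _
      have e4 : (Pi.single p.2 (1 : ℝ) : ι → ℝ) p.2 = 1 := Pi.single_eq_same _ _
      simp only [hL2, map_sub, map_mul, MvPolynomial.eval_C, MvPolynomial.eval_X, e1, e2, e3, e4,
        map_zero] at h
      have := hne q hq
      apply this
      linarith
    · -- coefficient of `v p.1`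
      have h := congrArg (MvPolynomial.eval (Pi.single p.1 (1 : ℝ))) h0
      have e1 : (Pi.single p.1 (1 : ℝ) : ι → ℝ) q.1 = 0 := Pi.single_eq_of_ne (Ne.symm h1) _
      have e2 : (Pi.single p.1 (1 : ℝ) : ι → ℝ) q.2 = 0 :=
        Pi.single_eq_of_ne (d12 _ _ sp.1 sq.2) _
      have e3 : (Pi.single p.1 (1 : ℝ) : ι → ℝ) p.1 = 1 := Pi.single_eq_same _ _
      have e4 : (Pi.single p.1 (1 : ℝ) : ι → ℝ) p.2 = 0 :=
        Pi.single_eq_of_ne (d12 _ _ sp.1 sp.2) _
      simp only [hL2, map_sub, map_mul, MvPolynomial.eval_C, MvPolynomial.eval_X, e1, e2, e3, e4,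
        map_zero] at h
      have := hne q hq
      apply this
      linarith
  have hprod : (∏ p ∈ Q, L1 p) * ∏ r ∈ Q.offDiag, L2 r ≠ 0 :=
    mul_ne_zero (Finset.prod_ne_zero_iff.2 n1) (Finset.prod_ne_zero_iff.2 n2)
  obtain ⟨v, hv⟩ : ∃ v : ι → ℝ,
      MvPolynomial.eval v ((∏ p ∈ Q, L1 p) * ∏ r ∈ Q.offDiag, L2 r) ≠ 0 := by
    by_contra hcon
    push Not at hcon
    apply hprod
    apply MvPolynomial.funext
    intro w
    rw [hcon w, map_zero]
  rw [map_mul, map_prod, map_prod] at hv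
  have hv1 := Finset.prod_ne_zero_iff.1 (left_ne_zero_of_mul hv)
  have hv2 := Finset.prod_ne_zero_iff.1 (right_ne_zero_of_mul hv)
  refine ⟨v, fun p hp h => hv1 p hp ?_, fun p hp q hq hpq h => hv2 (p, q) ?_ ?_⟩
  · simp only [hL1, map_sub, MvPolynomial.eval_X]
    rw [h, sub_self]
  · exact Finset.mem_offDiag.2 ⟨hp, hq, hpq⟩
  · simp only [hL2, map_sub, map_mul, MvPolynomial.eval_C, MvPolynomial.eval_X]
    rw [h, sub_self]

/-- ZT-4 -/
theorem card_cov_le {ι : Type} [Fintype ι] [DecidableEq ι] {P : (ι → ℝ) → ℝ} {d : ℕ}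
    (hP : LineOK P d) {y0 : ι → ℝ} (hy0 : P y0 ≠ 0) (Q : Finset (ι × ι)) (side : ι → Bool)
    (hQ : ∀ p ∈ Q, side p.1 = true ∧ side p.2 = false)
    (hcov : ∀ p ∈ Q, ∀ y, y p.1 = y p.2 → P y = 0) : Q.card ≤ d := by
  have hne : ∀ p ∈ Q, y0 p.1 ≠ y0 p.2 := fun p hp h => hy0 (hcov p hp y0 h)
  obtain ⟨v, hv1, hv2⟩ := exists_direction y0 Q side hQ hne
  rcases hP y0 v with h | h
  · exact absurd (by simpa using h 0) hy0
  · set c : ι × ι → ℝ := fun p => (y0 p.2 - y0 p.1) / (v p.1 - v p.2) with hc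
    have hinj : Set.InjOn c (Q : Set (ι × ι)) := by
      intro p hp q hq hpq
      by_contra hne'
      apply hv2 p hp q hq hne'
      have h1 : v p.1 - v p.2 ≠ 0 := sub_ne_zero.2 (hv1 p hp)
      have h2 : v q.1 - v q.2 ≠ 0 := sub_ne_zero.2 (hv1 q hq)
      simp only [hc] at hpq
      rw [div_eq_div_iff h1 h2] at hpq
      linarith
    have h3 := h (Q.image c) (by
      intro t ht
      rw [Finset.mem_image] at ht
      obtain ⟨p, hp, rfl⟩ := ht
      apply hcov p hp
      have h1 : v p.1 - v p.2 ≠ 0 := sub_ne_zero.2 (hv1 p hp)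
      simp only [hc]
      field_simp
      ring)
    rwa [Finset.card_image_of_injOn hinj] at h3

/-- ZT-4b -/
theorem card_covp_le {m n : ℕ} (h : 3 * m ≤ n) {d : ℕ} (f : MvPolynomial (Fin n × Fin n) ℝ)
    (hf : f.totalDegree ≤ d) : (covp h f).card ≤ d := by
  classical
  unfold covp
  split_ifs with h0
  · simp
  · push Not at h0
    obtain ⟨y0, hy0⟩ := h0
    refine card_cov_le (lineOK_pev h f hf) hy0 _ (fun e => decide (e.1 = 0)) ?_ ?_
    · intro p hp
      rw [Finset.mem_filter] at hp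
      obtain ⟨_, h1, h2, _⟩ := hp
      refine ⟨by simp [h1], ?_⟩
      rw [h2]
      decide
    · intro p hp
      rw [Finset.mem_filter] at hp
      exact hp.2.2.2

end Pool.Agent.Helper50.ZT
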